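import Pool.Agent.H3.Med4
import Pool.Agent.H3.MedGraph

set_option autoImplicit false

namespace Pool.Agent.Results.MP_46d9e0_co.DegreeFour

/-- Let `l` list the adjacency eigenvalues (with multiplicity) of a graph of maximum degree at
most 4 on `n` vertices in non-increasing order. Every entry at a zero-based position `i ≤ n / 2`
is at least `-√3`; the median eigenvalues sit at positions `(n - 1) / 2` and `n / 2`. -/
theorem result (V : Type) [Fintype V] [DecidableEq V] (G : SimpleGraph V) [DecidableRel G.Adj]
    (hG : G.maxDegree ≤ 4) (l : List ℝ) (hs : l.Pairwise (· ≥ ·))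
    (hl : (l : Multiset ℝ) = (G.adjMatrix ℝ).charpoly.roots)
    (i : ℕ) (hi : i ≤ Fintype.card V / 2) (x : ℝ) (hx : l[i]? = some x) :
    -Real.sqrt 3 ≤ x := by
  have hA : (G.adjMatrix ℝ).IsHermitian := by
    ext i j; simp [SimpleGraph.adjMatrix_apply, G.adj_comm]
  have hc : l.length = Fintype.card V := by
    rw [← Multiset.coe_card, hl, hA.roots_charpoly_eq_eigenvalues]; simp
  obtain ⟨h1, h2⟩ := List.getElem?_eq_some_iff.1 hx
  have : Nonempty V := Fintype.card_pos_iff.1 (by omega)
  have h := (Pool.Agent.H3.MedGraph.both G 4 Pool.Agent.H3.Med4.g4 hG).2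
  rw [← hl, Multiset.filter_coe, Multiset.coe_card] at h
  by_contra hlt
  have e : ((4 - 1 : ℕ) : ℝ) = 3 := by norm_num
  rw [e] at h
  have h3 : (l.drop i).filter (fun x => decide (x < -Real.sqrt 3)) = l.drop i := by
    rw [List.filter_eq_self]
    intro y hy
    rw [List.drop_eq_getElem_cons h1, h2] at hy
    have h4 := (hs.sublist (List.drop_sublist i l))
    rw [List.drop_eq_getElem_cons h1, h2, List.pairwise_cons] at h4
    rcases List.mem_cons.1 hy with rfl | hy
    · simpa using hlt
    · have := h4.1 y hy
      simp only [decide_eq_true_eq]; linarith [not_le.1 hlt]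
  have h5 := ((List.drop_sublist i l).filter fun x => decide (x < -Real.sqrt 3)).length_le
  rw [h3, List.length_drop] at h5
  omega

end Pool.Agent.Results.MP_46d9e0_co.DegreeFour
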